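import Mathlib
import Pool.Agent.H107Z.PC7

/-! Strongly `q`-pseudocompact group topologies without non-trivial convergent sequences. -/

set_option autoImplicit false

namespace Pool.Agent.Results.MP_dbf3d5_gt.NoSequences

open Filter Topology

universe u

/-- every continuous real function is bounded -/
def Pseudocompact (X : Type u) [TopologicalSpace X] : Prop :=
  ∀ f : X → ℝ, Continuous f → ∃ M : ℝ, ∀ x, |f x| ≤ M

/-- a free (non-principal) ultrafilter on the natural numbers -/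
def Free (p : Ultrafilter ℕ) : Prop := ∀ n : ℕ, p ≠ pure n

/-- `y` is a `p`-limit of the sequence `x` -/
def IsPLimit {X : Type u} [TopologicalSpace X] (p : Ultrafilter ℕ) (x : ℕ → X) (y : X) : Prop :=
  ∀ V ∈ 𝓝 y, {n | x n ∈ V} ∈ p

/-- strongly `p`-pseudocompact -/
def StronglyPseudocompactAt (p : Ultrafilter ℕ) (X : Type u) [TopologicalSpace X] : Prop :=
  ∀ U : ℕ → Set X, (∀ n, IsOpen (U n)) → (∀ n, (U n).Nonempty) →
    ∃ x : ℕ → X, (∀ n, x n ∈ U n) ∧ ∃ y, IsPLimit p x y

/-- no sequence of pairwise distinct points converges -/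
def NoNontrivialConvergentSeq (X : Type u) [TopologicalSpace X] : Prop :=
  ∀ x : ℕ → X, Function.Injective x → ∀ y : X, ¬ Tendsto x atTop (𝓝 y)

theorem bounded_of_strongly {X : Type u} [TopologicalSpace X] {p : Ultrafilter ℕ} (hp : Free p)
    (h : StronglyPseudocompactAt p X) (f : X → ℝ) (hf : Continuous f) :
    ∃ M : ℝ, ∀ x, |f x| ≤ M := by
  by_contra hcon
  push Not at hcon
  obtain ⟨x, hx, y, hy⟩ := h (fun n => {z | (n : ℝ) < |f z|})
    (fun n => isOpen_lt continuous_const hf.abs) fun n => hcon n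
  have h1 := hy {z | |f z| < |f y| + 1}
    ((isOpen_lt hf.abs continuous_const).mem_nhds (by simp))
  obtain ⟨N, hN⟩ := exists_nat_gt (|f y| + 1)
  have h2 : {n | x n ∈ {z | |f z| < |f y| + 1}}.Finite := by
    refine (Set.finite_lt_nat N).subset fun n hn => ?_
    have h3 : (n : ℝ) < |f (x n)| := hx n
    have h4 : |f (x n)| < |f y| + 1 := hn
    exact_mod_cast (h3.trans h4).trans hN
  obtain ⟨n, -, hn⟩ := Ultrafilter.eq_pure_of_finite_mem h2 h1
  exact hp n hn

theorem result (G : Type u) [AddCommGroup G] (τ : TopologicalSpace G)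
    (hgrp : @IsTopologicalAddGroup G τ _) (hT2 : @T2Space G τ)
    (hpc : (∃ p : Ultrafilter ℕ, Free p ∧ @StronglyPseudocompactAt p G τ) ∨ @Pseudocompact G τ)
    (q : Ultrafilter ℕ) (hq : Free q) :
    ∃ σ : TopologicalSpace G, @IsTopologicalAddGroup G σ _ ∧ @T2Space G σ ∧
      @StronglyPseudocompactAt q G σ ∧ @NoNontrivialConvergentSeq G σ := by
  obtain ⟨σ, h1, h2, h3, h4⟩ := @H107Z.PC.Closed.of_pc _ (H107Z.PC.closed_good2 q hq) G _ τ hgrp
    hT2 (hpc.elim (fun ⟨_, hp, h⟩ => bounded_of_strongly hp h) id)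
  refine ⟨σ, h1, h2, fun U hU hne => ?_, fun x hx y hy => ?_⟩
  · obtain ⟨x, hx, y, hy⟩ := h3 U hU hne
    exact ⟨x, hx, y, fun V hV => hy hV⟩
  · obtain ⟨N, hN⟩ := eventually_atTop.1 (h4 x y hy)
    have := hx ((hN N le_rfl).trans (hN (N + 1) (Nat.le_succ N)).symm)
    omega

end Pool.Agent.Results.MP_dbf3d5_gt.NoSequences
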